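import Pool.Agent.N167.TR.Stm

/-!
# Sums over the generations of a tree
-/

set_option autoImplicit false

namespace Pool.Agent.N247.TR

open Pool.Agent.N167.TR Set

variable {M : ℕ}

/-- The lists of length `n`. -/
def L : ℕ → Finset (List (Fin M))
  | 0 => {[]}
  | n + 1 => ((Finset.univ : Finset (Fin M)) ×ˢ L n).image fun p => p.1 :: p.2

theorem mem_L (n : ℕ) (j : List (Fin M)) : j ∈ L n ↔ j.length = n := by
  induction n generalizing j with
  | zero => simp [L, List.length_eq_zero_iff]
  | succ n ih =>
    cases j with
    | nil => simp [L]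
    | cons k i => simp [L, ih]

theorem gen_eq (n : ℕ) (g : List (Fin M) → ℝ) : gen n g = ∑ j ∈ L n, g j := by
  induction n generalizing g with
  | zero => simp [gen, L]
  | succ n ih =>
    rw [gen, ih, L, Finset.sum_image]
    · rw [Finset.sum_product_right]
    · intro p _ p' _ h
      simp only [List.cons.injEq] at h
      exact Prod.ext h.1 h.2

theorem main : S_gen := by
  intro M
  refine ⟨?_, ?_, ?_, ?_, ?_, ?_, ?_⟩
  · intro n g h
    simp only [gen_eq, Finset.sum_add_distrib]
  · intro n c g
    simp only [gen_eq, Finset.mul_sum]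
  · intro n g h hgh
    simp only [gen_eq]
    exact Finset.sum_le_sum fun j hj => hgh j ((mem_L n j).1 hj)
  · intro n g j hg hj
    rw [gen_eq]
    exact Finset.single_le_sum (fun i _ => hg i) ((mem_L n j).2 hj)
  · intro n
    induction n with
    | zero => intro c; simp [gen]
    | succ n ih =>
      intro c
      rw [gen]
      simp only [Finset.sum_const, Finset.card_univ, Fintype.card_fin, nsmul_eq_mul]
      rw [ih, pow_succ]
      ring
  · intro n g g' s t h
    simp only [gen_eq]
    exact HasDerivWithinAt.fun_sum fun j hj => h j ((mem_L n j).1 hj)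
  · intro x hx hs N
    simp only [gen_eq]
    have hd : ((Finset.range N : Finset ℕ) : Set ℕ).PairwiseDisjoint (L (M := M)) := by
      intro a _ b _ hab
      rw [Function.onFun, Finset.disjoint_left]
      intro j hj hj'
      exact hab (((mem_L a j).1 hj).symm.trans ((mem_L b j).1 hj'))
    rw [← Finset.sum_biUnion hd]
    exact hs.sum_le_tsum _ fun j _ => sq_nonneg _

end Pool.Agent.N247.TR
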