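import Pool.Agent.N91.LC.Path

set_option autoImplicit false

/-!
# Project LC, subtask CW: the Christian side (S_BEHIND, S_WAIT, S_CW)
-/

namespace Pool.Agent.N247.LCCW

open Real Pool.Agent.N91.LC

/-! ### constants -/

theorem TT_nonneg (n j : ℕ) : 0 ≤ TT n j := by
  unfold TT
  exact th_nonneg (by have := ell_pos; have := abs_nonneg (pp n - pp j); linarith)

theorem TT_self (n : ℕ) : TT n n = RR := by
  unfold TT
  rw [sub_self, abs_zero, add_zero, RR_eq]

theorem TT_succ_lt (n : ℕ) : TT n (n + 1) < 2 * ell := by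
  have hp := pp_le n
  have hp0 := pp_pos n
  have e1 : |pp n - pp (n + 1)| = 2 / 3 * pp n := by
    rw [pp_succ, abs_of_nonneg (by linarith)]; ring
  have hD0 : 0 ≤ ell + |pp n - pp (n + 1)| := by
    have := ell_pos; have := abs_nonneg (pp n - pp (n + 1)); linarith
  have h1 := exp_th (g := GG) hD0
  have hx : 2 * (ell + |pp n - pp (n + 1)|) ≤ 0.0202 := by
    rw [e1]; unfold ell p0 at *; linarith
  have h2 : exp (2 * (ell + |pp n - pp (n + 1)|)) ≤ 1.0207 := by
    calc exp (2 * (ell + |pp n - pp (n + 1)|)) ≤ exp 0.0202 := exp_le_exp.2 hx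
      _ ≤ 1 + 0.0202 + 0.0202 ^ 2 := exp_upper (by norm_num) (by norm_num)
      _ ≤ _ := by norm_num
  have h3 : (0.04 : ℝ) + 1 ≤ exp 0.04 := add_one_le_exp _
  have h4 : exp (2 * th GG (ell + |pp n - pp (n + 1)|)) < exp (2 * (2 * ell)) := by
    rw [h1, GG_sq]
    have : (2:ℝ) * (2 * ell) = 0.04 := by unfold ell; norm_num
    rw [this]
    linarith
  have := exp_lt_exp.1 h4
  unfold TT
  linarith

theorem Fn_en (j : ℕ) : Fn j (en j) = 0 := by
  have h : Dn j (en j) = 0 := by
    unfold Dn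
    rw [if_pos (show (en j).v = pp j from rfl)]
    show ell - ell = 0
    ring
  unfold Fn
  rw [h, th_zero_right]
  exact min_eq_left (by have := ell_pos; linarith)

theorem Fn_eq_of_dist (hFN : S_FN) (n : ℕ) {x y : X} (h : dist x y = 0) :
    Fn n x.P = Fn n y.P := by
  have h1 := hFN n x y (by rw [h]; have := pp_pos n; linarith)
  rw [h] at h1
  have := abs_nonpos_iff.1 h1
  linarith

theorem ray_P (j : ℕ) (s : ℝ) : (ray j s).P = en j := rfl

/-! ### the Lion stays behind -/

theorem ray_cont (j : ℕ) : Continuous (fun s => ray j (max s 0)) := by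
  have : LipschitzWith 1 (fun s => ray j (max s 0)) := LipschitzWith.of_dist_le_mul (by
    intro x y; rw [NNReal.coe_one, one_mul, Real.dist_eq]
    refine (ray_dist_le j (le_max_right _ _) (le_max_right _ _)).trans ?_
    rw [max_comm x 0, max_comm y 0]
    exact abs_max_le _ _ _)
  exact this.continuous

theorem path_cont {f : ℝ → X} (hf : Pth f) : Continuous (fun s => f (max s 0)) := by
  have : LipschitzWith 1 (fun s => f (max s 0)) := LipschitzWith.of_dist_le_mul (by
    intro x y; rw [NNReal.coe_one, one_mul, Real.dist_eq]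
    refine (hf _ _ (le_max_right _ _) (le_max_right _ _)).trans ?_
    rw [max_comm x 0, max_comm y 0]
    exact abs_max_le _ _ _)
  exact this.continuous

theorem behind (hFN : S_FN) (hFNP : S_FNP) : S_BEHIND := by
  intro f hf t1 T j ht1 hT hTF
  have part1 : ∀ t, t1 ≤ t → t ≤ t1 + T → T - (t - t1) < Fn j (f t).P := by
    intro t h1 _
    have h2 := hFNP j f hf t1 t ht1 (ht1.trans h1)
    rw [abs_le, abs_of_nonpos (by linarith)] at h2
    linarith [h2.1, h2.2]
  refine ⟨part1, ?_⟩
  intro t ht hcap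
  set T0 := t1 + T with hT0
  have hT00 : 0 ≤ T0 := by positivity
  -- the compact set
  let C : Set (ℝ × ℝ) := {p | T0 ≤ p.1 ∧ p.1 ≤ t ∧ p.1 - T0 ≤ p.2 ∧ p.2 ≤ (t - T0) + (t - p.1) ∧
    dist (f (max p.1 0)) (ray j (max p.2 0)) = 0}
  have hCclosed : IsClosed C := by
    have c1 : IsClosed {p : ℝ × ℝ | T0 ≤ p.1} := isClosed_le continuous_const continuous_fst
    have c2 : IsClosed {p : ℝ × ℝ | p.1 ≤ t} := isClosed_le continuous_fst continuous_const
    have c3 : IsClosed {p : ℝ × ℝ | p.1 - T0 ≤ p.2} :=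
      isClosed_le (continuous_fst.sub continuous_const) continuous_snd
    have c4 : IsClosed {p : ℝ × ℝ | p.2 ≤ (t - T0) + (t - p.1)} :=
      isClosed_le continuous_snd (continuous_const.add (continuous_const.sub continuous_fst))
    have c5 : IsClosed {p : ℝ × ℝ | dist (f (max p.1 0)) (ray j (max p.2 0)) = 0} :=
      isClosed_eq (((path_cont hf).comp continuous_fst).dist ((ray_cont j).comp continuous_snd))
        continuous_const
    have : C = {p : ℝ × ℝ | T0 ≤ p.1} ∩ ({p : ℝ × ℝ | p.1 ≤ t} ∩ ({p : ℝ × ℝ | p.1 - T0 ≤ p.2} ∩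
        ({p : ℝ × ℝ | p.2 ≤ (t - T0) + (t - p.1)} ∩
          {p : ℝ × ℝ | dist (f (max p.1 0)) (ray j (max p.2 0)) = 0}))) := by
      ext p; rfl
    rw [this]
    exact c1.inter (c2.inter (c3.inter (c4.inter c5)))
  have hCsub : C ⊆ Set.Icc T0 t ×ˢ Set.Icc 0 (2 * (t - T0)) := by
    rintro ⟨s, σ⟩ ⟨h1, h2, h3, h4, -⟩
    simp only at h1 h2 h3 h4
    exact ⟨⟨h1, h2⟩, ⟨by simp only; linarith, by simp only; linarith⟩⟩
  have hCcomp : IsCompact C := (isCompact_Icc.prod isCompact_Icc).of_isClosed_subset hCclosed hCsub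
  have hCne : C.Nonempty := by
    refine ⟨(t, t - T0), ht, le_rfl, le_rfl, by simp, ?_⟩
    simp only
    rw [max_eq_left (by linarith : (0:ℝ) ≤ t), max_eq_left (by linarith : (0:ℝ) ≤ t - T0)]
    exact hcap
  obtain ⟨⟨s, σ⟩, ⟨h1, h2, h3, h4, h5⟩, hmin⟩ :=
    hCcomp.exists_isMinOn hCne continuous_fst.continuousOn
  simp only at h1 h2 h3 h4 h5
  have hs0 : 0 ≤ s := hT00.trans h1
  have hσ0 : 0 ≤ σ := by linarith
  rw [max_eq_left hs0, max_eq_left hσ0] at h5
  rcases h1.eq_or_lt with he | hlt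
  · -- s = T0
    have e1 := Fn_eq_of_dist hFN j h5
    rw [ray_P, Fn_en] at e1
    have e2 := part1 T0 (by linarith) le_rfl
    rw [← he] at e1
    rw [e1] at e2
    have : T - (T0 - t1) = 0 := by rw [hT0]; ring
    linarith
  · have hσpos : 0 < σ := by linarith
    have hh : 0 < (ray j σ).h := by
      show 0 < hh j (max σ 0)
      rw [max_eq_left hσ0]; exact hh_pos j hσpos
    set δ := min ((ray j σ).h / 2) (s - T0) with hδ
    have hδ0 : 0 < δ := lt_min (by linarith) (by linarith)
    have hδ1 : δ < (ray j σ).h := (min_le_left _ _).trans_lt (by linarith)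
    have hδ2 : δ ≤ s - T0 := min_le_right _ _
    have hs'0 : 0 ≤ s - δ := by linarith
    have hd : dist (ray j σ) (f (s - δ)) ≤ δ := by
      have a1 := hf s (s - δ) hs0 hs'0
      rw [show s - (s - δ) = δ by ring, abs_of_pos hδ0] at a1
      have a2 := dist_triangle (ray j σ) (f s) (f (s - δ))
      rw [dist_comm (ray j σ) (f s), h5] at a2
      linarith
    obtain ⟨-, k2, k3, k4⟩ := X.ray_local (hd.trans_lt hδ1)
    have k5 : (ray j σ).s = σ := max_eq_left hσ0
    rw [k5] at k4
    have k3' : (f (s - δ)).n = j := k3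
    have k2' : (f (s - δ)).P = en j := k2
    have k6 := abs_le.1 (k4.trans hd)
    have k7 := (f (s - δ)).hs
    have hmem : (s - δ, (f (s - δ)).s) ∈ C := by
      refine ⟨by simp only; linarith, by simp only; linarith, by simp only; linarith [k6.2],
        by simp only; linarith [k6.1], ?_⟩
      simp only
      rw [max_eq_left hs'0, max_eq_left k7]
      apply le_antisymm _ dist_nonneg
      apply AdmX.dist_le
      left
      refine ⟨by rw [k3']; exact k2', rfl, k3', ?_⟩
      show |(f (s - δ)).s - max (f (s - δ)).s 0| ≤ 0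
      rw [max_eq_left k7]; simp
    have := hmin hmem
    have this' : s ≤ s - δ := this
    linarith

/-! ### waiting -/

theorem EE_pos_of {n : ℕ} {P : Pt} (hP : P.ok) (h1 : Fn n P ≤ RR)
    (h2 : Fn (n + 1) P ≤ TT n (n + 1)) : 0 < EE P := by
  rcases (EE_nonneg hP).eq_or_lt with h | h
  swap
  · exact h
  exfalso
  have hb : P.b = ell := by
    have := EE_ge hP; have := hP.b1; linarith
  have key : ∀ m, P.v ≠ pp m → Fn m P = 2 * ell := by
    intro m hm
    have hD : Dn m P = ell + P.b + |P.v - pp m| := by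
      unfold Dn; rw [if_neg hm]
    have h3 : 2 * ell ≤ Dn m P := by
      rw [hD, hb]; linarith [abs_nonneg (P.v - pp m)]
    unfold Fn
    apply min_eq_right
    exact h3.trans (th_ge (by have := ell_pos; linarith))
  by_cases hv : P.v = pp n
  · have hv' : P.v ≠ pp (n + 1) := by
      rw [hv, pp_succ]; have := pp_pos n; intro hh; linarith
    rw [key _ hv'] at h2
    exact absurd h2 (not_le.2 (TT_succ_lt n))
  · rw [key _ hv] at h1
    have := RR_hi
    unfold ell at h1
    linarith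

theorem wait (hFN : S_FN) (hFNG : S_FNG) (hGP : S_GPATH) (hLA : S_LA) : S_WAIT := by
  intro n f hf t1 t2 ht1 ht12 hg H t ht ht'
  have hEE : ∀ s, t1 ≤ s → s ≤ t2 → 0 < EE (f s).P := fun s h h' =>
    EE_pos_of (f s).ok (H s h h').1 (H s h h').2
  refine ⟨?_, hEE t ht ht'⟩
  -- from u with g = 0 to v without touch in between
  have step : ∀ v, t1 < v → v ≤ t2 → (∀ s, t1 < s → s < v → 0 < Metric.infDist (f s) GamS) →
      (f v).P.g = 0 := by
    intro v h1 h2 h3
    have := (hGP f hf t1 v ht1 h1 (fun s a b => hEE s a (b.trans h2)) h3).1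
    rw [hg, mul_zero] at this
    exact le_antisymm this (f v).ok.g0
  -- touches are impossible
  by_cases hK : ∃ s, t1 ≤ s ∧ s ≤ t2 ∧ Metric.infDist (f s) GamS = 0
  · exfalso
    let K : Set ℝ := {s | t1 ≤ s ∧ s ≤ t2 ∧ Metric.infDist (f (max s 0)) GamS = 0}
    have hKc : IsClosed K := by
      have c1 : IsClosed {s : ℝ | t1 ≤ s} := isClosed_Ici
      have c2 : IsClosed {s : ℝ | s ≤ t2} := isClosed_Iic
      have c3 : IsClosed {s : ℝ | Metric.infDist (f (max s 0)) GamS = 0} :=
        isClosed_eq ((Metric.continuous_infDist_pt GamS).comp (path_cont hf)) continuous_const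
      have : K = {s : ℝ | t1 ≤ s} ∩ ({s : ℝ | s ≤ t2} ∩
        {s : ℝ | Metric.infDist (f (max s 0)) GamS = 0}) := by ext; rfl
      rw [this]; exact c1.inter (c2.inter c3)
    have hKcomp : IsCompact K :=
      isCompact_Icc.of_isClosed_subset hKc (fun s hs => ⟨hs.1, hs.2.1⟩)
    obtain ⟨s1, a1, a2, a3⟩ := hK
    have hKne : K.Nonempty := ⟨s1, a1, a2, by rw [max_eq_left (ht1.trans a1)]; exact a3⟩
    obtain ⟨s, ⟨b1, b2, b3⟩, hmin⟩ := hKcomp.exists_isMinOn hKne continuous_id.continuousOn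
    have hs0 : 0 ≤ s := ht1.trans b1
    rw [max_eq_left hs0] at b3
    have hgs : (f s).P.g = 0 := by
      rcases b1.eq_or_lt with he | hlt
      · rw [← he]; exact hg
      · apply step s hlt b2
        intro r hr1 hr2
        rcases (Metric.infDist_nonneg (x := f r) (s := GamS)).eq_or_lt with h0 | h0
        · exfalso
          have hmem : r ∈ K := ⟨hr1.le, hr2.le.trans b2, by
            rw [max_eq_left (ht1.trans hr1.le)]; exact h0.symm⟩
          have := hmin hmem
          have this' : s ≤ r := this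
          linarith
        · exact h0
    obtain ⟨q, hq, hq1, hq2⟩ := touch b3
    have hla := hLA (f s) (gamX q) (by rw [hq2]; exact hEE s b1 b2) (by rw [hq2]; norm_num)
    rw [hq2, gamX_P hq hq1, hgs, log_A_zero, la_gam hq] at hla
    have hq3 : q = 0 := by
      have := abs_nonpos_iff.1 hla; linarith
    rw [hq3] at hq2
    have hfn := Fn_eq_of_dist hFN n hq2
    rw [gamX_P le_rfl (by unfold q0; norm_num)] at hfn
    have h3 := hFNG n 0 le_rfl (by unfold q0; norm_num)
    have h4 := (H s b1 b2).1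
    have := pp_pos n
    linarith
  · push Not at hK
    rcases ht.eq_or_lt with he | hlt
    · rw [← he]; exact hg
    · apply step t hlt ht'
      intro s h1 h2
      have := hK s h1.le (h2.le.trans ht')
      exact lt_of_le_of_ne Metric.infDist_nonneg (Ne.symm this)

/-! ### the Christian wins -/

theorem pt_y0 : pt 0 0 GG = y0 := pt_eq y0_ok

theorem spine_ok {v : ℝ} (h0 : 0 ≤ v) (h1 : v ≤ p0) : (⟨0, v, GG⟩ : Pt).ok :=
  ⟨le_rfl, ell_pos.le, h0, h1, GG_pos.le, le_rfl, Or.inl rfl⟩

theorem wk_P {t : ℝ} (ht : 0 ≤ t) : (wk t).P = ⟨0, min (2 / 3 * t) p0, GG⟩ := by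
  unfold wk
  rw [pt_eq (spine_ok (le_min (by positivity) p0_pos.le) (min_le_right _ _))]
  rfl

theorem wk_zero : dist (wk 0) y0 = 0 := by
  have : wk 0 = y0 := by
    unfold wk
    rw [mul_zero, min_eq_left p0_pos.le]
    exact pt_y0
  rw [this, dist_self]

theorem wk_tau (n : ℕ) : wk (3 / 2 * pp n) = pt 0 (pp n) GG := by
  unfold wk
  rw [show 2 / 3 * (3 / 2 * pp n) = pp n by ring, min_eq_left (pp_le n)]

theorem x0_b : x0.P.b = binf := by
  unfold x0
  rw [gamX_P le_rfl (by unfold q0; norm_num)]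
  show binf - 0 / 3 = binf
  simp

/-- no early capture -/
theorem early {f : ℝ → X} (hf : Pth f) (hf0 : dist (f 0) x0 = 0) {t : ℝ} (ht : 0 ≤ t)
    (ht1 : t < binf) {y : X} (hy : y.P.b = 0) : dist (f t) y ≠ 0 := by
  intro h
  have h1 := X.b_lip (f t) y
  rw [h, hy, sub_zero] at h1
  have h2 := abs_nonpos_iff.1 h1
  have h3 := X.b_lip (f t) x0
  have h4 := dist_triangle (f t) (f 0) x0
  have h5 := hf t 0 ht le_rfl
  rw [sub_zero, abs_of_nonneg ht] at h5
  rw [x0_b, h2, abs_sub_comm, sub_zero] at h3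
  have := le_abs_self binf
  linarith

theorem escape (hFN : S_FN) (hBEH : S_BEHIND) (hRUN : S_RUN) {F : (ℝ → X) → (ℝ → X)}
    (hF : LionStrat F) {c : ℝ → X} (hc : Pth c) (hc0 : dist (c 0) y0 = 0) {t1 : ℝ} (ht1 : 0 ≤ t1)
    {n j : ℕ} (hW : dist (c t1) (pt 0 (pp n) GG) = 0)
    (hnc : ∀ t, 0 ≤ t → t ≤ t1 → dist (F c t) (c t) ≠ 0)
    (hj : TT n j < Fn j (F c t1).P) :
    ∃ c', Pth c' ∧ dist (c' 0) y0 = 0 ∧ ∀ t, 0 ≤ t → dist (F c' t) (c' t) ≠ 0 := by
  obtain ⟨r, hr, hr0, hr1, hr2⟩ := hRUN n j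
  have hglue : dist (c t1) (r 0) = 0 := by
    apply le_antisymm _ dist_nonneg
    have := dist_triangle (c t1) (pt 0 (pp n) GG) (r 0)
    rw [hW, dist_comm (pt 0 (pp n) GG) (r 0), hr0] at this
    linarith
  set c' : ℝ → X := fun t => if t ≤ t1 then c t else r (t - t1) with hc'
  have hP' : Pth c' := glue_pth ht1 hc hr hglue
  have hle : ∀ t, t ≤ t1 → c' t = c t := fun t h => if_pos h
  have hgt : ∀ t, t1 < t → c' t = r (t - t1) := fun t h => if_neg (not_le.2 h)
  have hc'0 : dist (c' 0) y0 = 0 := by rw [hle 0 ht1]; exact hc0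
  have hsame : ∀ s, 0 ≤ s → s ≤ t1 → F c' s = F c s :=
    hF.2 c' c hP' hc'0 hc hc0 t1 ht1 (fun s _ h => by rw [hle s h, dist_self])
  have hf : Pth (F c') := (hF.1 c' hP' hc'0).1
  have hb := hBEH (F c') hf t1 (TT n j) j ht1 (TT_nonneg n j) (by rw [hsame t1 ht1 le_rfl]; exact hj)
  refine ⟨c', hP', hc'0, ?_⟩
  intro t ht
  rcases le_or_gt t t1 with h | h
  · rw [hle t h, hsame t ht h]; exact hnc t ht h
  · rw [hgt t h]
    intro hd
    rcases le_or_gt t (t1 + TT n j) with h' | h'
    · have e1 := hb.1 t h.le h'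
      have e2 := hr1 (t - t1) (by linarith) (by linarith)
      have e3 := Fn_eq_of_dist hFN j hd
      linarith
    · have e1 := hb.2 t h'.le
      have e2 := hr2 (t - t1) (by linarith)
      apply e1
      apply le_antisymm _ dist_nonneg
      have := dist_triangle (F c' t) (r (t - t1)) (ray j (t - (t1 + TT n j)))
      rw [show t - (t1 + TT n j) = t - t1 - TT n j by ring] at this ⊢
      rw [hd, e2] at this
      linarith

theorem QQ_W (n : ℕ) : 0.0149 ≤ QQ (pt 0 (pp n) GG).P := by
  have e : (pt 0 (pp n) GG).P = ⟨0, pp n, GG⟩ := by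
    rw [pt_eq (spine_ok (pp_pos n).le (pp_le n))]; rfl
  rw [e]
  unfold QQ
  apply le_min
  · show (0.0149 : ℝ) ≤ log (A GG)
    have h1 : A GG ^ 2 = 3 / 2 := by rw [A_sq, GG_sq]; norm_num
    have h2 : 2 * log (A GG) = log (3 / 2) := by
      rw [← h1, Real.log_pow]; norm_num
    have h3 : 1 - (3 / 2 : ℝ)⁻¹ ≤ log (3 / 2) := Real.one_sub_inv_le_log_of_pos (by norm_num)
    have h4 : (1:ℝ) - (3 / 2 : ℝ)⁻¹ = 1 / 3 := by norm_num
    linarith
  · show (0.0149 : ℝ) ≤ th GG (ell - 0)
    rw [sub_zero, ← RR_eq]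
    have := RR_lo; linarith

theorem QQ_zero {P : Pt} (hP : P.ok) (hg : P.g = 0) : QQ P = 0 := by
  unfold QQ
  rw [hg, log_A_zero]
  exact min_eq_left (EE_nonneg hP)

theorem cw (hFN : S_FN) (hBEH : S_BEHIND) (hWAIT : S_WAIT) (hCLAIM : S_CLAIM) (hRUN : S_RUN) :
    S_CW := by
  intro F hF
  have h0 := hF.1 wk walk_pth wk_zero
  obtain ⟨n, hn⟩ := hCLAIM (F wk) h0.1 h0.2
  have hpp := pp_pos n
  have hpl := pp_le n
  set τ := 3 / 2 * pp n with hτ
  have hτ0 : 0 ≤ τ := by positivity
  have hτ1 : τ < binf := by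
    have := binf_lo; rw [hτ]; unfold p0 at hpl; linarith
  have hcase : RR < Fn n (F wk τ).P ∨ ((F wk τ).P.g = 0 ∧ Fn n (F wk τ).P ≤ RR) := by
    rcases lt_or_ge RR (Fn n (F wk τ).P) with h | h
    · exact Or.inl h
    · rcases hn with h' | h'
      · exact absurd h' (not_lt.2 h)
      · exact Or.inr ⟨h', h⟩
  rcases hcase with hA | ⟨hg, hB⟩
  · refine escape hFN hBEH hRUN hF walk_pth wk_zero hτ0 (n := n) (j := n)
      (by rw [hτ, wk_tau, dist_self]) ?_ (by rw [TT_self]; exact hA)
    intro t ht ht1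
    exact early h0.1 h0.2 ht (ht1.trans_lt hτ1) (by rw [wk_P ht])
  · -- wait
    set c : ℝ → X := fun t => wk (min t τ) with hc
    have hPc : Pth c := stop_pth hτ0 walk_pth
    have hle : ∀ t, t ≤ τ → c t = wk t := fun t h => by rw [hc]; simp only; rw [min_eq_left h]
    have hge : ∀ t, τ ≤ t → c t = pt 0 (pp n) GG := fun t h => by
      rw [hc]; simp only; rw [min_eq_right h, hτ, wk_tau]
    have hc0 : dist (c 0) y0 = 0 := by rw [hle 0 hτ0]; exact wk_zero
    have hsame : ∀ s, 0 ≤ s → s ≤ τ → F c s = F wk s :=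
      hF.2 c wk hPc hc0 walk_pth wk_zero τ hτ0 (fun s _ h => by rw [hle s h, dist_self])
    obtain ⟨hf, hf0⟩ := hF.1 c hPc hc0
    have hgτ : (F c τ).P.g = 0 := by rw [hsame τ hτ0 le_rfl]; exact hg
    -- no capture if QQ is small
    have hQ : ∀ t, τ ≤ t → QQ (F c t).P ≤ 0.005 → dist (F c t) (c t) ≠ 0 := by
      intro t ht hq hd
      rw [hge t ht] at hd
      have h1 := X.QQ_lip (F c t) (pt 0 (pp n) GG)
      rw [hd] at h1
      have h2 := abs_nonpos_iff.1 h1
      have h3 := QQ_W n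
      linarith
    have hearly : ∀ t, 0 ≤ t → t ≤ τ → dist (F c t) (c t) ≠ 0 := by
      intro t ht ht1
      exact early hf hf0 ht (ht1.trans_lt hτ1) (by rw [hle t ht1, wk_P ht])
    let S : Set ℝ := {t | τ ≤ t ∧ (RR < Fn n (F c t).P ∨ TT n (n + 1) < Fn (n + 1) (F c t).P)}
    have hnS : ∀ t, τ ≤ t → t ∉ S → Fn n (F c t).P ≤ RR ∧ Fn (n + 1) (F c t).P ≤ TT n (n + 1) := by
      intro t ht hS
      constructor
      · by_contra h; exact hS ⟨ht, Or.inl (not_le.1 h)⟩
      · by_contra h; exact hS ⟨ht, Or.inr (not_le.1 h)⟩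
    rcases S.eq_empty_or_nonempty with hS | hS
    · refine ⟨c, hPc, hc0, ?_⟩
      intro t ht
      rcases le_total t τ with h | h
      · exact hearly t ht h
      · have := hWAIT n (F c) hf τ t hτ0 h hgτ
          (fun s h1 _ => hnS s h1 (by rw [hS]; exact Set.notMem_empty _)) t h le_rfl
        apply hQ t h
        rw [QQ_zero (F c t).ok this.1]; norm_num
    · have hbdd : BddBelow S := ⟨τ, fun t ht => ht.1⟩
      set ts := sInf S with hts
      have hτts : τ ≤ ts := le_csInf hS (fun t ht => ht.1)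
      obtain ⟨t1, ht1S, ht1⟩ := exists_lt_of_csInf_lt hS (show sInf S < ts + 0.005 by linarith)
      have ht1τ : τ ≤ t1 := ht1S.1
      have hzero : ∀ u, τ ≤ u → (u = τ ∨ u < ts) → (F c u).P.g = 0 := by
        intro u hu h
        rcases h with h | h
        · rw [h]; exact hgτ
        · exact (hWAIT n (F c) hf τ u hτ0 hu hgτ (fun s h1 h2 => hnS s h1
            (notMem_of_lt_csInf (h2.trans_lt h) hbdd)) u hu le_rfl).1
      set t' := max τ (t1 - 0.005) with ht'
      have ht'τ : τ ≤ t' := le_max_left _ _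
      have ht'1 : t1 - 0.005 ≤ t' := le_max_right _ _
      have ht'g : (F c t').P.g = 0 := by
        apply hzero t' ht'τ
        rcases le_total τ (t1 - 0.005) with h | h
        · right; rw [ht', max_eq_right h]; linarith
        · left; rw [ht', max_eq_left h]
      have ht'le : t' ≤ t1 := max_le ht1τ (by linarith)
      have hnc : ∀ t, 0 ≤ t → t ≤ t1 → dist (F c t) (c t) ≠ 0 := by
        intro t ht htt
        rcases le_total t τ with h | h
        · exact hearly t ht h
        · apply hQ t h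
          rcases le_or_gt t' t with h' | h'
          · have e1 := hf.pot (φ := fun x => QQ x.P) (fun x y => X.QQ_lip x y) ht (hτ0.trans ht'τ)
              (t := t')
            rw [QQ_zero (F c t').ok ht'g, sub_zero, abs_of_nonneg (by linarith : (0:ℝ) ≤ t - t')] at e1
            have := le_abs_self (QQ (F c t).P)
            linarith
          · have : t < ts := by
              rcases le_total τ (t1 - 0.005) with h2 | h2
              · rw [ht', max_eq_right h2] at h'; linarith
              · rw [ht', max_eq_left h2] at h'; linarith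
            rw [QQ_zero (F c t).ok (hzero t h (Or.inr this))]; norm_num
      have hW : dist (c t1) (pt 0 (pp n) GG) = 0 := by rw [hge t1 ht1τ, dist_self]
      rcases ht1S.2 with h | h
      · exact escape hFN hBEH hRUN hF hPc hc0 (hτ0.trans ht1τ) (n := n) (j := n) hW hnc
          (by rw [TT_self]; exact h)
      · exact escape hFN hBEH hRUN hF hPc hc0 (hτ0.trans ht1τ) (n := n) (j := n + 1) hW hnc h

/-- all together, in the form of the project statement -/
theorem cw' (hFN : S_FN) (hFNP : S_FNP) (hFNG : S_FNG) (hGP : S_GPATH) (hLA : S_LA)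
    (hCLAIM : S_CLAIM) (hRUN : S_RUN) : S_CW :=
  cw hFN (behind hFN hFNP) (wait hFN hFNG hGP hLA) hCLAIM hRUN

end Pool.Agent.N247.LCCW
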