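import Pool.Agent.N657.ZS.Stm

/-!
# The Peierls bound in infinite volume
-/

set_option autoImplicit false
set_option linter.unusedSectionVars false

namespace Pool.Agent.N247.ZSCH4

open MeasureTheory Filter Pool.Agent.TH964.CF Pool.Agent.N623.NA Pool.Agent.N657.ZS
open scoped Topology

theorem ind_nonneg (p : Prop) : 0 ≤ ind p := by unfold ind; split_ifs <;> norm_num
theorem ind_le_one (p : Prop) : ind p ≤ 1 := by unfold ind; split_ifs <;> norm_num
theorem ind_true {p : Prop} (h : p) : ind p = 1 := by simp [ind, h]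
theorem ind_false {p : Prop} (h : ¬ p) : ind p = 0 := by simp [ind, h]

theorem fl_per {G : Type} {q n : ℕ} (d : G → ZMod q) (U : Lk (ZMod n) → G) (z : Fin 4 → ℤ)
    (i j : Fin 4) :
    fl (pr d (per U)) z i j = fl (pr d U) (fun k => (z k : ZMod n)) i j := by
  have h : ∀ i, (fun k => (((z + ev ℤ i) k : ℤ) : ZMod n)) =
      (fun k => (z k : ZMod n)) + ev (ZMod n) i := by
    intro i
    funext k
    simp only [Pi.add_apply, Int.cast_add, ev]
    by_cases hk : k = i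
    · subst hk; simp
    · simp [Pi.single_eq_of_ne hk]
  unfold fl pr per
  simp only [h]

theorem bsite_eq {M : ℕ} [NeZero M] (z : Fin 4 → ℤ) (ε : Fin 4 → Fin 3)
    (hε : ∀ k, (((ε k : Fin 3) : ℕ) : ℤ) = z k % 2) :
    bsite (fun k => ((z k / 2 : ℤ) : ZMod M)) ε = fun k => (z k : ZMod (2 * M)) := by
  funext k
  unfold bsite
  have h1 : ((((z k / 2 : ℤ) : ZMod M)).val : ℤ) = (z k / 2) % M := ZMod.val_intCast _
  have h2 : ((2 * (((z k / 2 : ℤ) : ZMod M)).val + (ε k : ℕ) : ℕ) : ℤ) =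
      2 * ((z k / 2) % M) + z k % 2 := by
    push_cast
    rw [h1, hε]
  have h3 : ((2 * (((z k / 2 : ℤ) : ZMod M)).val + (ε k : ℕ) : ℕ) : ZMod (2 * M)) =
      ((2 * ((z k / 2) % M) + z k % 2 : ℤ) : ZMod (2 * M)) := by
    rw [← h2]
    push_cast
    rfl
  rw [h3, ZMod.intCast_eq_intCast_iff_dvd_sub]
  refine ⟨(z k / 2) / M, ?_⟩
  have h4 := Int.mul_ediv_add_emod (z k / 2) M
  have h5 := Int.mul_ediv_add_emod (z k) 2
  push_cast
  linear_combination (-2) * h4 - h5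

/-- The block of a site. -/
def bk (M : ℕ) (z : Fin 4 → ℤ) : Fin 4 → ZMod M := fun k => ((z k / 2 : ℤ) : ZMod M)

theorem bad_BB {G : Type} {q M : ℕ} [NeZero M] (d : G → ZMod q) (U : Lk (ZMod (2 * M)) → G)
    (z : Fin 4 → ℤ) (i j : Fin 4) (hij : i < j) (h : fl (pr d (per U)) z i j ≠ 0) :
    BB (pr d U) (bk M z) := by
  have hlt : ∀ k, z k % 2 = 0 ∨ z k % 2 = 1 := fun k => Int.emod_two_eq (z k)
  let ε : Fin 4 → Fin 3 := fun k => if z k % 2 = 0 then 0 else 1
  have hε : ∀ k, (((ε k : Fin 3) : ℕ) : ℤ) = z k % 2 := by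
    intro k
    rcases hlt k with h' | h'
    · simp only [ε]
      rw [if_pos h', h']
      rfl
    · simp only [ε]
      rw [if_neg (by omega), h']
      rfl
  have hε2 : ∀ k, ε k ≠ 2 := by
    intro k
    simp only [ε]
    split_ifs <;> decide
  refine ⟨ε, i, j, hij, hε2 i, hε2 j, ?_⟩
  show fl (pr d U) (bsite (fun k => ((z k / 2 : ℤ) : ZMod M)) ε) i j ≠ 0
  rw [bsite_eq z ε hε, ← fl_per]
  exact h

theorem card_bound (P : Finset ((Fin 4 → ℤ) × Fin 4 × Fin 4)) (B M : ℕ)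
    (hB : ∀ p ∈ P, ∀ k, |p.1 k| ≤ B) (hM : B + 2 ≤ M) [DecidableEq (Fin 4 → ZMod M)] :
    P.card ≤ 256 * (P.image fun p => bk M p.1).card := by
  refine Finset.card_le_mul_card_image P 256 fun b _ => ?_
  have hc : (Finset.univ : Finset ((Fin 4 → ZMod 2) × Fin 4 × Fin 4)).card = 256 := by
    simp [Finset.card_univ, Fintype.card_prod]
  rw [← hc]
  refine Finset.card_le_card_of_injOn (fun p => (fun k => (p.1 k : ZMod 2), p.2))
    (fun _ _ => Finset.mem_coe.2 (Finset.mem_univ _)) ?_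
  intro p hp p' hp' h
  simp only [Finset.coe_filter, Set.mem_ofPred_eq] at hp hp'
  have h1 : ∀ k, (p.1 k : ZMod 2) = (p'.1 k : ZMod 2) := fun k => congrFun (Prod.ext_iff.1 h).1 k
  have h2 : p.2 = p'.2 := (Prod.ext_iff.1 h).2
  refine Prod.ext ?_ h2
  funext k
  have h3 : ((p.1 k / 2 : ℤ) : ZMod M) = ((p'.1 k / 2 : ℤ) : ZMod M) :=
    congrFun (hp.2.trans hp'.2.symm) k
  rw [ZMod.intCast_eq_intCast_iff_dvd_sub] at h3
  have h4 := h1 k
  rw [ZMod.intCast_eq_intCast_iff_dvd_sub] at h4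
  have b1 := abs_le.1 (hB p hp.1 k)
  have b2 := abs_le.1 (hB p' hp'.1 k)
  have h5 : p'.1 k / 2 - p.1 k / 2 = 0 := by
    refine Int.eq_zero_of_abs_lt_dvd h3 ?_
    rw [abs_lt]
    constructor <;> omega
  push_cast at h4
  omega

section

variable {G : Type} [Group G] [TopologicalSpace G]

theorem cont_any {n q : ℕ} [NeZero n] (d : G → ZMod q) (hd : Ch d) {Y : Type} [TopologicalSpace Y]
    (Ψ : (Lk (ZMod n) → ZMod q) → Y) : Continuous fun U : Lk (ZMod n) → G => Ψ (pr d U) := by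
  have h1 : IsLocallyConstant fun U : Lk (ZMod n) → G => pr d U := by
    rw [IsLocallyConstant.iff_exists_open]
    intro U
    refine ⟨⋂ l, {V | d (V l) = d (U l)}, isOpen_iInter_of_finite fun l => ?_, ?_, ?_⟩
    · have : {V : Lk (ZMod n) → G | d (V l) = d (U l)} =
          (fun V : Lk (ZMod n) → G => V l) ⁻¹' (d ⁻¹' {d (U l)}) := rfl
      rw [this]
      exact (hd.lc.isOpen_fiber _).preimage (continuous_apply l)
    · simp
    · intro V hV
      funext l
      exact Set.mem_iInter.1 hV l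
  exact (h1.comp Ψ).continuous

theorem cont_ind {q : ℕ} (d : G → ZMod q) (hd : Ch d) (z : Fin 4 → ℤ) (i j : Fin 4) :
    Continuous fun U : Lk ℤ → G => ind (fl (pr d U) z i j ≠ 0) := by
  have h1 : ∀ l : Lk ℤ, IsLocallyConstant fun U : Lk ℤ → G => d (U l) := fun l =>
    hd.lc.comp_continuous (continuous_apply l)
  have h2 : IsLocallyConstant fun U : Lk ℤ → G => fl (pr d U) z i j := by
    unfold fl pr
    exact (((h1 (z, i)).add (h1 (z + ev ℤ i, j))).sub (h1 (z + ev ℤ j, i))).sub (h1 (z, j))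
  exact (h2.comp fun x => ind (x ≠ 0)).continuous

theorem loc_F {q : ℕ} (d : G → ZMod q) (hd : Ch d)
    (P : Finset ((Fin 4 → ℤ) × Fin 4 × Fin 4)) :
    Loc (fun U : Lk ℤ → G =>
      ((∏ p ∈ P, ind (fl (pr d U) p.1 p.2.1 p.2.2 ≠ 0) : ℝ) : ℂ)) := by
  refine ⟨Complex.continuous_ofReal.comp
    (continuous_finsetProd _ fun p _ => cont_ind d hd p.1 p.2.1 p.2.2), ?_⟩
  refine ⟨⋃ p ∈ P, {(p.1, p.2.1), (p.1 + ev ℤ p.2.1, p.2.2), (p.1 + ev ℤ p.2.2, p.2.1),
    (p.1, p.2.2)}, ?_, ?_⟩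
  · exact P.finite_toSet.biUnion fun p _ => Set.toFinite _
  · intro U V h
    simp only
    congr 1
    refine Finset.prod_congr rfl fun p hp => ?_
    have hm : ∀ l ∈ ({(p.1, p.2.1), (p.1 + ev ℤ p.2.1, p.2.2), (p.1 + ev ℤ p.2.2, p.2.1),
        (p.1, p.2.2)} : Set (Lk ℤ)), U l = V l := fun l hl =>
      h l (Set.mem_biUnion hp hl)
    have e1 := hm (p.1, p.2.1) (by simp)
    have e2 := hm (p.1 + ev ℤ p.2.1, p.2.2) (by simp)
    have e3 := hm (p.1 + ev ℤ p.2.2, p.2.1) (by simp)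
    have e4 := hm (p.1, p.2.2) (by simp)
    unfold fl pr
    rw [e1, e2, e3, e4]

end

section main

variable {G : Type} [Group G] [TopologicalSpace G] [IsTopologicalGroup G] [CompactSpace G]
    [T2Space G] [SecondCountableTopology G] [MeasurableSpace G] [BorelSpace G] (σ : Measure G)
    [IsProbabilityMeasure σ] [σ.IsHaarMeasure] {N : ℕ} (π : G →* Matrix.unitaryGroup (Fin N) ℂ)

theorem integ {X : Type} [TopologicalSpace X] [CompactSpace X] [MeasurableSpace X]
    [OpensMeasurableSpace X] {E : Type} [NormedAddCommGroup E] [SecondCountableTopology E]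
    (μ : Measure X) [IsFiniteMeasure μ] {F : X → E} (hF : Continuous F) :
    Integrable F μ := by
  obtain ⟨C, hC⟩ := (isCompact_univ (X := X)).exists_bound_of_continuousOn hF.continuousOn
  exact Integrable.of_bound hF.aestronglyMeasurable C
    (Eventually.of_forall fun U => hC U (Set.mem_univ U))

theorem action_cont (hπ : Continuous π) (β : ℝ) {n : ℕ} [NeZero n] :
    Continuous (action π β : (Lk (ZMod n) → G) → ℝ) := by
  unfold action
  refine continuous_const.mul (continuous_finsetSum _ fun x _ => continuous_finsetSum _ fun i _ =>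
    continuous_finsetSum _ fun j _ => ?_)
  split_ifs
  · have h1 : Continuous (rt π) := by
      unfold rt
      exact Complex.continuous_re.comp ((continuous_subtype_val.comp hπ).matrix_trace)
    refine h1.comp ?_
    unfold plaq
    fun_prop
  · exact continuous_const

theorem gibbs_prob (hπ : Continuous π) (β : ℝ) (n : ℕ) [NeZero n] :
    IsProbabilityMeasure (gibbs σ π β n) := by
  unfold gibbs
  refine isProbabilityMeasure_tilted ?_
  exact integ _ (Real.continuous_exp.comp (action_cont π hπ β))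

/-- The bound on the torus. -/
theorem torus (h1 : S_CH1) (h2 : S_CH2) (hπ : Continuous π) (q : ℕ) (d : G → ZMod q) (hq : 0 < q)
    (hd : Ch d) (β ρ : ℝ) (hρ : 0 < ρ) (M : ℕ) [NeZero M] [NeZero (2 * M)] (hM : Even M)
    (h3 : ∫ U, ∏ b : Fin 4 → ZMod M, ind (BB (pr d U) b) ∂gibbs σ π β (2 * M) ≤ ρ ^ (M ^ 4))
    (P : Finset ((Fin 4 → ℤ) × Fin 4 × Fin 4)) (hP : ∀ p ∈ P, p.2.1 < p.2.2)
    [DecidableEq (Fin 4 → ZMod M)] :
    ∫ U, ∏ p ∈ P, ind (fl (pr d (per U)) p.1 p.2.1 p.2.2 ≠ 0) ∂gibbs σ π β (2 * M) ≤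
      ρ ^ (P.image fun p => bk M p.1).card := by
  classical
  have := gibbs_prob σ π hπ β (2 * M)
  have hcont : ∀ S : Finset (Fin 4 → ZMod M), Continuous fun U : Lk (ZMod (2 * M)) → G =>
      ∏ b ∈ S, ind (BB (pr d U) b) := fun S =>
    cont_any d hd fun θ => ∏ b ∈ S, ind (BB θ b)
  have key := h1 M hM (fun S => ∫ U, ∏ b ∈ S, ind (BB (pr d U) b) ∂gibbs σ π β (2 * M))
    (fun S => integral_nonneg fun U => Finset.prod_nonneg fun b _ => ind_nonneg _)
    (by simp)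
    (fun S k c => h2 G σ N π hπ β q d hq hd M hM S k c) ρ hρ h3
    (P.image fun p => bk M p.1)
  refine le_trans (integral_mono (integ _ ?_) (integ _ (hcont _)) fun U => ?_) key
  · refine continuous_finsetProd _ fun p _ => ?_
    simp only [fl_per]
    exact cont_any d hd fun θ => ind (fl θ (fun k => (p.1 k : ZMod (2 * M))) p.2.1 p.2.2 ≠ 0)
  · simp only
    by_cases hall : ∀ p ∈ P, fl (pr d (per U)) p.1 p.2.1 p.2.2 ≠ 0
    · rw [Finset.prod_eq_one fun p hp => ind_true (hall p hp)]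
      rw [Finset.prod_eq_one]
      intro b hb
      obtain ⟨p, hp, rfl⟩ := Finset.mem_image.1 hb
      exact ind_true (bad_BB d U p.1 p.2.1 p.2.2 (hP p hp) (hall p hp))
    · push Not at hall
      obtain ⟨p, hp, hp0⟩ := hall
      rw [Finset.prod_eq_zero hp (ind_false fun h => h hp0)]
      exact Finset.prod_nonneg fun b _ => ind_nonneg _

end main

theorem main (h1 : S_CH1) (h2 : S_CH2) (h3 : S_CH3) : S_CH4 := by
  intro G _ _ _ _ _ _ _ _ σ _ _ N π hπ hinj q d hq hd r hr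
  classical
  obtain ⟨β₀, hβ₀, H⟩ := h3 G σ N π hπ hinj q d hq hd ((min r 1) ^ 256)
    (pow_pos (lt_min hr one_pos) _)
  refine ⟨β₀, hβ₀, ?_⟩
  intro β hβ 𝓕 Λ hne hle hev hlim P hP
  have hloc := loc_F d hd P
  have hl := (Complex.continuous_re.tendsto _).comp (hlim _ hloc)
  obtain ⟨B, hB⟩ : ∃ B : ℕ, ∀ p ∈ P, ∀ k, |p.1 k| ≤ B := by
    refine ⟨∑ p ∈ P, ∑ k, (p.1 k).natAbs, fun p hp k => ?_⟩
    have a1 : (p.1 k).natAbs ≤ ∑ k, (p.1 k).natAbs :=
      Finset.single_le_sum (f := fun k => (p.1 k).natAbs) (fun _ _ => Nat.zero_le _)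
        (Finset.mem_univ k)
    have a2 : ∑ k, (p.1 k).natAbs ≤ ∑ p ∈ P, ∑ k, (p.1 k).natAbs :=
      Finset.single_le_sum (f := fun p : (Fin 4 → ℤ) × Fin 4 × Fin 4 => ∑ k, (p.1 k).natAbs)
        (fun _ _ => Nat.zero_le _) hp
    have a3 := a1.trans a2
    rw [Int.abs_eq_natAbs]
    exact_mod_cast a3
  refine le_of_tendsto hl ?_
  have hbig : ∀ᶠ m in 𝓕, B + 2 ≤ m := hle (eventually_ge_atTop (B + 2))
  filter_upwards [hev, hbig] with m hm hmB
  have : NeZero (m + 1) := ⟨by omega⟩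
  have i2 : NeZero (2 * (m + 1)) := ⟨by omega⟩
  have t1 := torus σ π h1 h2 hπ q d hq hd β ((min r 1) ^ 256) (pow_pos (lt_min hr one_pos) _)
    (m + 1) hm (H β hβ (m + 1) (by omega)) P hP
  have t2 := card_bound P B (m + 1) hB (by omega)
  have hmin0 : 0 ≤ min r 1 := (lt_min hr one_pos).le
  have t3 : ((min r 1) ^ 256) ^ (P.image fun p => bk (m + 1) p.1).card ≤ r ^ P.card := by
    rw [← pow_mul]
    calc (min r 1) ^ (256 * (P.image fun p => bk (m + 1) p.1).card) ≤ (min r 1) ^ P.card :=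
          pow_le_pow_of_le_one hmin0 (min_le_right _ _) t2
      _ ≤ r ^ P.card := pow_le_pow_left₀ hmin0 (min_le_left _ _) _
  have t4 : (∫ U, ((∏ p ∈ P, ind (fl (pr d (per U)) p.1 p.2.1 p.2.2 ≠ 0) : ℝ) : ℂ)
      ∂gibbs σ π β (2 * (m + 1))).re =
      ∫ U, ∏ p ∈ P, ind (fl (pr d (per U)) p.1 p.2.1 p.2.2 ≠ 0) ∂gibbs σ π β (2 * (m + 1)) := by
    rw [integral_complex_ofReal]
    exact Complex.ofReal_re _
  refine le_trans (le_of_eq ?_) (t1.trans t3)
  exact t4

end Pool.Agent.N247.ZSCH4
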